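import Pool.Agent.V5helper54.GP.Stm

set_option autoImplicit false

/-!
# Project GP, job NC: the number of the classes `c` modulo `M` with `c`, `n - c` coprime to `M`
-/

namespace Pool.Agent.V5helper65.GP

open Finset
open Pool.Agent.V5helper54.GP

/-- the local condition -/
def Ok (n M c : ℕ) : Prop := ∀ p : ℕ, p.Prime → p ∣ M → ¬ p ∣ c ∧ ¬ (n ≡ c [MOD p])

theorem dvd_iff {n M c p : ℕ} (hM : 1 ≤ M) (hpM : p ∣ M) :
    p ∣ n + (M - 1) * c ↔ n ≡ c [MOD p] := by
  rw [← ZMod.natCast_eq_zero_iff, ← ZMod.natCast_eq_natCast_iff]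
  have h0 : ((M : ℕ) : ZMod p) = 0 := (ZMod.natCast_eq_zero_iff M p).2 hpM
  push_cast [Nat.cast_sub hM]
  rw [h0]
  constructor
  · intro h
    linear_combination h
  · intro h
    linear_combination h

theorem cop_iff {a M : ℕ} : a.Coprime M ↔ ∀ p : ℕ, p.Prime → p ∣ M → ¬ p ∣ a := by
  constructor
  · intro h p hp hpM hpa
    exact Nat.not_coprime_of_dvd_of_dvd hp.one_lt hpa hpM h
  · intro h
    by_contra hc
    obtain ⟨p, hp, h1, h2⟩ := Nat.Prime.not_coprime_iff_dvd.1 hc
    exact h p hp h2 h1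

theorem ok_iff {n M c : ℕ} (hM : 1 ≤ M) :
    (c.Coprime M ∧ (n + (M - 1) * c).Coprime M) ↔ Ok n M c := by
  rw [cop_iff, cop_iff]
  unfold Ok
  constructor
  · rintro ⟨h1, h2⟩ p hp hpM
    exact ⟨h1 p hp hpM, fun h => h2 p hp hpM ((dvd_iff hM hpM).2 h)⟩
  · intro h
    exact ⟨fun p hp hpM => (h p hp hpM).1, fun p hp hpM hd => (h p hp hpM).2 ((dvd_iff hM hpM).1 hd)⟩

open Classical in
/-- the count -/
noncomputable def cnt (n M : ℕ) : ℕ := ((range M).filter (fun c => Ok n M c)).card

/-- the condition depends on the class of `c` modulo a multiple of the radical only -/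
theorem ok_mod {n M a c : ℕ} (h : ∀ p : ℕ, p.Prime → p ∣ M → p ∣ a) : Ok n M (c % a) ↔ Ok n M c := by
  unfold Ok
  refine forall_congr' fun p => forall_congr' fun hp => forall_congr' fun hpM => ?_
  have hpa := h p hp hpM
  have h1 : c % a ≡ c [MOD p] := (Nat.mod_modEq c a).of_dvd hpa
  rw [h1.dvd_iff (dvd_refl p)]
  constructor
  · rintro ⟨h2, h3⟩
    exact ⟨h2, fun h4 => h3 (h4.trans h1.symm)⟩
  · rintro ⟨h2, h3⟩
    exact ⟨h2, fun h4 => h3 (h4.trans h1)⟩

theorem ok_mul {n a b c : ℕ} : Ok n (a * b) c ↔ Ok n a c ∧ Ok n b c := by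
  unfold Ok
  constructor
  · intro h
    exact ⟨fun p hp hd => h p hp (hd.mul_right b), fun p hp hd => h p hp (hd.mul_left a)⟩
  · rintro ⟨h1, h2⟩ p hp hd
    rcases (Nat.Prime.dvd_mul hp).1 hd with h | h
    · exact h1 p hp h
    · exact h2 p hp h

theorem cnt_mul {n a b : ℕ} (ha : 1 ≤ a) (hb : 1 ≤ b) (hab : a.Coprime b) :
    cnt n (a * b) = cnt n a * cnt n b := by
  classical
  unfold cnt
  rw [← Finset.card_product]
  refine Finset.card_bij (fun c _ => (c % a, c % b)) ?_ ?_ ?_
  · intro c hc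
    rw [Finset.mem_filter] at hc
    rw [Finset.mem_product, Finset.mem_filter, Finset.mem_filter, Finset.mem_range, Finset.mem_range]
    have h := ok_mul.1 hc.2
    exact ⟨⟨Nat.mod_lt _ ha, (ok_mod (fun p _ h => h)).2 h.1⟩,
      ⟨Nat.mod_lt _ hb, (ok_mod (fun p _ h => h)).2 h.2⟩⟩
  · intro c hc c' hc' h
    rw [Finset.mem_filter, Finset.mem_range] at hc hc'
    obtain ⟨h1, h2⟩ := Prod.mk.injEq _ _ _ _ ▸ h
    have h3 : c ≡ c' [MOD a * b] := (Nat.modEq_and_modEq_iff_modEq_mul hab).1 ⟨h1, h2⟩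
    exact Nat.ModEq.eq_of_lt_of_lt h3 hc.1 hc'.1
  · rintro ⟨x, y⟩ hxy
    rw [Finset.mem_product, Finset.mem_filter, Finset.mem_filter, Finset.mem_range, Finset.mem_range] at hxy
    obtain ⟨⟨hx, hx'⟩, ⟨hy, hy'⟩⟩ := hxy
    have hlt := Nat.chineseRemainder_lt_mul hab x y (by omega) (by omega)
    obtain ⟨z, hz⟩ : ∃ z, z = Nat.chineseRemainder hab x y := ⟨_, rfl⟩
    have e1 : (z : ℕ) % a = x := by
      have := z.2.1
      rw [Nat.ModEq, Nat.mod_eq_of_lt hx] at this
      exact this
    have e2 : (z : ℕ) % b = y := by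
      have := z.2.2
      rw [Nat.ModEq, Nat.mod_eq_of_lt hy] at this
      exact this
    refine ⟨z, ?_, ?_⟩
    · rw [Finset.mem_filter, Finset.mem_range]
      refine ⟨by rw [hz]; exact hlt, ok_mul.2 ⟨?_, ?_⟩⟩
      · rw [← ok_mod (a := a) (fun p _ h => h), e1]
        exact hx'
      · rw [← ok_mod (a := b) (fun p _ h => h), e2]
        exact hy'
    · rw [e1, e2]

/-- a periodic condition -/
theorem cnt_periodic (P : ℕ → Prop) [DecidablePred P] (r : ℕ) (hP : ∀ c, P (c + r) ↔ P c) (m : ℕ) :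
    ((range (m * r)).filter P).card = m * ((range r).filter P).card := by
  rw [← Nat.count_eq_card_filter_range, ← Nat.count_eq_card_filter_range]
  have hP' : ∀ m c, P (m * r + c) ↔ P c := by
    intro m
    induction m with
    | zero => intro c; simp
    | succ m ih =>
      intro c
      have : (m + 1) * r + c = (m * r + c) + r := by ring
      rw [this, hP, ih]
  induction m with
  | zero => simp
  | succ m ih =>
    have e : (m + 1) * r = m * r + r := by ring
    rw [e, Nat.count_add, ih]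
    have : Nat.count (fun k => P (m * r + k)) r = Nat.count P r := by
      congr 1
      ext c
      exact hP' m c
    rw [this]
    ring

theorem cnt_prime_pow {n p k : ℕ} (hp : p.Prime) (hk : 0 < k) :
    ((p ^ k : ℕ) : ℝ) * (cnt n (p ^ k) : ℝ) = sing (p ^ k) n * (Nat.totient (p ^ k) : ℝ) ^ 2 := by
  classical
  have hokp : ∀ c, Ok n (p ^ k) c ↔ (¬ p ∣ c ∧ ¬ (n ≡ c [MOD p])) := by
    intro c
    constructor
    · intro h
      exact h p hp (dvd_pow_self p hk.ne')
    · intro h q hq hqd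
      have : q = p := (Nat.prime_dvd_prime_iff_eq hq hp).1 (hq.dvd_of_dvd_pow hqd)
      rw [this]
      exact h
  have h1 : cnt n (p ^ k) = p ^ (k - 1) * ((range p).filter (fun c => Ok n (p ^ k) c)).card := by
    unfold cnt
    have e : p ^ k = p ^ (k - 1) * p := by
      rw [← pow_succ]
      congr 1
      omega
    rw [show range (p ^ k) = range (p ^ (k - 1) * p) by rw [← e]]
    apply cnt_periodic
    intro c
    rw [hokp, hokp]
    have e1 : p ∣ c + p ↔ p ∣ c := by
      rw [Nat.dvd_add_self_right]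
    have e2 : (n ≡ c + p [MOD p]) ↔ (n ≡ c [MOD p]) := by
      unfold Nat.ModEq
      rw [Nat.add_mod_right]
    rw [e1, e2]
  -- the count modulo `p`
  have h2 : ((range p).filter (fun c => Ok n (p ^ k) c)) = ((range p).erase 0).erase (n % p) := by
    ext c
    rw [Finset.mem_filter, Finset.mem_erase, Finset.mem_erase, Finset.mem_range, hokp]
    constructor
    · rintro ⟨hc, h3, h4⟩
      refine ⟨?_, ?_, hc⟩
      · rintro rfl
        exact h4 (Nat.mod_modEq n p).symm
      · rintro rfl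
        exact h3 (dvd_zero p)
    · rintro ⟨h3, h4, hc⟩
      refine ⟨hc, ?_, ?_⟩
      · intro hd
        exact h4 (Nat.eq_zero_of_dvd_of_lt hd hc)
      · intro hm
        apply h3
        unfold Nat.ModEq at hm
        rw [Nat.mod_eq_of_lt hc] at hm
        exact hm.symm
  have hp2 : 2 ≤ p := hp.two_le
  have hpR : (0 : ℝ) < p := by exact_mod_cast hp.pos
  have hp1R : (0 : ℝ) < (p : ℝ) - 1 := by
    have : (2 : ℝ) ≤ p := by exact_mod_cast hp2
    linarith
  have h0 : 0 ∈ range p := Finset.mem_range.2 hp.pos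
  have hsing : sing (p ^ k) n = if p ∣ n then (p : ℝ) / (p - 1) else (p : ℝ) * (p - 2) / (p - 1) ^ 2 := by
    unfold sing
    rw [Nat.primeFactors_prime_pow hk.ne' hp, Finset.prod_singleton]
  have htot : (Nat.totient (p ^ k) : ℝ) = (p : ℝ) ^ (k - 1) * ((p : ℝ) - 1) := by
    rw [Nat.totient_prime_pow hp hk]
    push_cast [Nat.cast_sub hp.one_le]
    ring
  have hpk : ((p ^ k : ℕ) : ℝ) = (p : ℝ) ^ (k - 1) * p := by
    push_cast
    rw [← pow_succ]
    congr 1
    omega
  rw [hsing, htot, hpk, h1, h2]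
  by_cases hd : p ∣ n
  · rw [if_pos hd]
    have hn0 : n % p = 0 := Nat.mod_eq_zero_of_dvd hd
    rw [hn0, Finset.erase_eq_of_notMem (Finset.notMem_erase 0 _), Finset.card_erase_of_mem h0, Finset.card_range]
    push_cast [Nat.cast_sub hp.one_le]
    field_simp
  · rw [if_neg hd]
    have hn0 : n % p ≠ 0 := fun h => hd (Nat.dvd_of_mod_eq_zero h)
    have hmem : n % p ∈ (range p).erase 0 :=
      Finset.mem_erase.2 ⟨hn0, Finset.mem_range.2 (Nat.mod_lt _ hp.pos)⟩
    rw [Finset.card_erase_of_mem hmem, Finset.card_erase_of_mem h0, Finset.card_range]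
    have e3 : ((p - 1 - 1 : ℕ) : ℝ) = (p : ℝ) - 2 := by
      rw [show p - 1 - 1 = p - 2 by omega, Nat.cast_sub hp2]
      norm_num
    push_cast
    rw [e3]
    field_simp

theorem main (n M : ℕ) (hM : 1 ≤ M) :
    (M : ℝ) * (cnt n M : ℝ) = sing M n * (Nat.totient M : ℝ) ^ 2 := by
  classical
  induction M using Nat.recOnPosPrimePosCoprime with
  | prime_pow p k hp hk => exact cnt_prime_pow hp hk
  | zero => omega
  | one =>
    have : cnt n 1 = 1 := by
      unfold cnt
      rw [Finset.card_eq_one]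
      refine ⟨0, ?_⟩
      ext c
      rw [Finset.mem_filter, Finset.mem_range, Finset.mem_singleton]
      constructor
      · intro h; omega
      · rintro rfl
        refine ⟨by norm_num, ?_⟩
        intro p hp hd
        exact absurd (Nat.dvd_one.1 hd) hp.one_lt.ne'
    rw [this]
    unfold sing
    simp
  | coprime a b ha hb hab iha ihb =>
    rw [cnt_mul (by omega) (by omega) hab, Nat.totient_mul hab]
    have hs : sing (a * b) n = sing a n * sing b n := by
      unfold sing
      rw [Nat.Coprime.primeFactors_mul hab, Finset.prod_union (Nat.Coprime.disjoint_primeFactors hab)]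
    rw [hs]
    have h1 := iha (by omega)
    have h2 := ihb (by omega)
    push_cast
    calc (a : ℝ) * b * (cnt n a * cnt n b) = (a * cnt n a) * (b * cnt n b) := by ring
      _ = _ := by rw [h1, h2]; ring

theorem t_NC : S_NC := by
  classical
  intro M n hM
  rw [← main n M hM]
  congr 2
  unfold cnt
  apply congrArg Finset.card
  ext c
  rw [Finset.mem_filter, Finset.mem_filter, ok_iff hM]

end Pool.Agent.V5helper65.GP
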